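import Mathlib
import Pool.Agent.R503.W.Bvh
import Pool.Agent.R503.T.Fin

/-! Weighted sums over trees of prime factors, with the maximum over the heights inside (helper503). -/

open Finset Filter

namespace Pool.Agent.R503.W

open Pool.Agent.R503.N Pool.Agent.R503.T
open Pool.Agent.H442R2.KF

lemma sum_codes {x q0 : ℕ} {θ ρ η σ : ℝ} {A : List ℕ → ℤ} {D : Finset (List ℕ)} (S : LS x q0 θ ρ η σ A D)
    (hx : (1 : ℝ) < x) (hρ : 0 < ρ) (hθ : θ ≤ 1) (f : ℕ → ℝ) (hf : ∀ t, 0 ≤ f t) :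
    ∑ l ∈ D, f l.prod ≤ (Fintype.card (Fin ⌈1 / ρ⌉₊ → Fin ⌈1 / ρ⌉₊) : ℝ) * ∑ t ∈ Icc 1 x, f t := by
  classical
  set K : ℕ := ⌈1 / ρ⌉₊ with hK
  have hpm : ∀ l ∈ D, ∀ p ∈ l, p.Prime := fun l hl p hp => (S.pm l hl p hp).1
  have h1 : ∑ l ∈ D, f l.prod ≤ ∑ c : Fin K → Fin K, ∑ l ∈ D.filter (fun l => HasCode (ext K c) l), f l.prod := by
    simp only [sum_filter]
    rw [sum_comm]
    refine sum_le_sum fun l hl => ?_
    obtain ⟨c, hc⟩ := code_ex K l (by
      have h2 := length_le S hx hρ hθ hl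
      have h3 := Nat.le_ceil (1 / ρ)
      exact_mod_cast h2.trans h3)
    have h3 := single_le_sum (f := fun c : Fin K → Fin K => if HasCode (ext K c) l then f l.prod else 0)
      (fun c _ => by
        by_cases h : HasCode (ext K c) l
        · simp only [h, if_true]; exact hf _
        · simp only [h, if_false]; exact le_rfl) (mem_univ c)
    simp only [hc, if_true] at h3
    exact h3
  refine h1.trans ?_
  have h2 : ∀ c : Fin K → Fin K, ∑ l ∈ D.filter (fun l => HasCode (ext K c) l), f l.prod ≤ ∑ t ∈ Icc 1 x, f t := by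
    intro c
    have e : ∑ l ∈ D.filter (fun l => HasCode (ext K c) l), f l.prod =
        ∑ t ∈ (D.filter (fun l => HasCode (ext K c) l)).image List.prod, f t := by
      rw [sum_image]
      intro a ha b hb hab
      rw [mem_coe, mem_filter] at ha hb
      exact prod_inj hpm (ext K c) ha.1 hb.1 ha.2 hb.2 hab
    rw [e]
    apply sum_le_sum_of_subset_of_nonneg _ fun _ _ _ => hf _
    intro t ht
    rw [mem_image] at ht
    obtain ⟨l, hl, rfl⟩ := ht
    have hl' := (mem_filter.1 hl).1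
    have hpos : 0 < l.prod := by
      refine Nat.pos_of_ne_zero fun h0 => ?_
      have := (S.sf l hl').ne_zero
      rw [h0, mul_zero] at this
      exact this rfl
    rw [mem_Icc]
    refine ⟨hpos, ?_⟩
    have h2 : ((l.prod : ℕ) : ℝ) ≤ x := by
      have h3 : ((l.prod : ℕ) : ℝ) ≤ q0 * (l.prod : ℕ) :=
        le_mul_of_one_le_left (Nat.cast_nonneg _) (by exact_mod_cast S.q0p)
      refine h3.trans ((S.bd l hl').trans ?_)
      calc (x : ℝ) ^ θ ≤ (x : ℝ) ^ (1 : ℝ) := Real.rpow_le_rpow_of_exponent_le hx.le hθ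
        _ = x := Real.rpow_one _
    exact_mod_cast h2
  refine (sum_le_sum fun c _ => h2 c).trans (le_of_eq ?_)
  rw [sum_const, nsmul_eq_mul]
  rfl

lemma omega_le (q : ℕ) (l : List ℕ) (hpm : ∀ p ∈ l, p.Prime) (hq : q ≠ 0) :
    (q * l.prod).primeFactors.card ≤ q.primeFactors.card + l.length := by
  have h0 : l.prod ≠ 0 := List.prod_ne_zero (fun h => Nat.not_prime_zero (hpm 0 h))
  rw [Nat.primeFactors_mul hq h0]
  refine (card_union_le _ _).trans (Nat.add_le_add_left ?_ _)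
  have h1 : l.prod.primeFactors ⊆ l.toFinset := by
    intro p hp
    have hp' := Nat.prime_of_mem_primeFactors hp
    have hd := Nat.dvd_of_mem_primeFactors hp
    rw [List.mem_toFinset]
    obtain ⟨r, hr, hpr⟩ := (Nat.Prime.prime hp').dvd_prod_iff.1 hd
    rw [(Nat.prime_dvd_prime_iff_eq hp' (hpm r hr)).1 hpr]
    exact hr
  exact (card_le_card h1).trans (List.toFinset_card_le l)

/-- one term -/
lemma term_le (y q t b : ℕ) (A : ℤ) (hq : 0 < q) (ht : 0 < t) (hco : q.Coprime t)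
    (hA : pn y q A = (piAP y q b : ℝ)) :
    |pn y (q * t) A - lin y / (Nat.totient (q * t) : ℝ)| ≤
      |pn y (q * t) A - pn y q A / (Nat.totient t : ℝ)| +
      1 / (Nat.totient t : ℝ) * (|Er y q b| + |(piN y : ℝ) - lin y| / (Nat.totient q : ℝ)) := by
  have e : pn y (q * t) A - lin y / (Nat.totient (q * t) : ℝ) =
      (pn y (q * t) A - pn y q A / (Nat.totient t : ℝ)) +
      1 / (Nat.totient t : ℝ) * (Er y q b + ((piN y : ℝ) - lin y) / (Nat.totient q : ℝ)) := by
    have e1 : Er y q b = pn y q A - (piN y : ℝ) / (Nat.totient q : ℝ) := by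
      unfold Er
      rw [hA]
    rw [e1, Nat.totient_mul hco]
    push_cast
    have a1 : (0 : ℝ) < Nat.totient q := by exact_mod_cast Nat.totient_pos.2 hq
    have a2 : (0 : ℝ) < Nat.totient t := by exact_mod_cast Nat.totient_pos.2 ht
    field_simp
    ring
  rw [e]
  refine (abs_add_le _ _).trans (add_le_add le_rfl ?_)
  rw [abs_mul, abs_of_nonneg (by positivity : (0 : ℝ) ≤ 1 / (Nat.totient t : ℝ))]
  apply mul_le_mul_of_nonneg_left _ (by positivity)
  refine (abs_add_le _ _).trans (add_le_add le_rfl ?_)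
  rw [abs_div, Nat.abs_cast]

/-- **the weighted form for ordered sequences of primes** -/
theorem fin_w (θ η ρ σ κ : ℝ) (hθ1 : 1 / 2 ≤ θ) (hη : 0 < η) (hσ : 0 ≤ σ)
    (hC3 : 28 * (θ - 1 / 2) + 20 * η + 15 * σ < 1 / 3)
    (hHG : 2 * (θ - 1 / 2) + σ < ρ) (hκ0 : 0 ≤ κ) (hκ : κ + σ < 1 / 3) (B U : ℕ) (hB : 1 ≤ B) :
    ∀ᶠ x : ℕ in atTop, ∀ (S : Finset ℕ) (A : ℕ → List ℕ → ℤ) (D : ℕ → Finset (List ℕ)) (y : ℕ → List ℕ → ℕ),
      (∀ q ∈ S, (q : ℝ) ≤ (x : ℝ) ^ κ) → (∀ q ∈ S, LS x q θ ρ η σ (A q) (D q)) →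
      (∀ q l, 2 ≤ y q l ∧ y q l ≤ x) →
      ∑ q ∈ S, ∑ l ∈ D q, (B : ℝ) ^ (q * l.prod).primeFactors.card *
        |pn (y q l) (q * l.prod) (A q l) - lin (y q l) / (Nat.totient (q * l.prod) : ℝ)| ≤
        x / Real.log x ^ U := by
  classical
  obtain ⟨ε, hε, hev⟩ := seq_max θ η ρ σ κ hθ1 hη hσ hC3 hHG hκ0 hκ
  have hρ : 0 < ρ := by linarith
  have hBr : (1 : ℝ) ≤ B := by exact_mod_cast hB
  set K : ℕ := ⌈1 / ρ⌉₊ with hK
  obtain ⟨k, hk⟩ := Pool.Agent.H398R2.BV.sum_pow_omega_div_totient (B : ℝ) hBr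
  obtain ⟨C1, hC1, hbv⟩ := bv_weights κ (by linarith) B (U + 3) hB
  obtain ⟨C2, hC2, hpnt⟩ := pnt_heights (U + 3 + 2 ^ k)
  set Cd : ℝ := (Fintype.card (Fin K → Fin K) : ℝ) with hCd
  have hCd0 : 0 ≤ Cd := Nat.cast_nonneg _
  set C : ℝ := (B : ℝ) ^ K * (1 + 4 * Cd * C1 + 4 * Cd * C2 * 2 ^ 2 ^ k) with hC
  have hlog : ∀ᶠ x : ℕ in atTop, 2 ^ 2 ^ k * Real.log x ^ (2 ^ k + U + 1) ≤ (x : ℝ) ^ ε :=
    tendsto_natCast_atTop_atTop.eventually (Pool.Agent.Y61.Z.ev_log_rpow (2 ^ 2 ^ k) (2 ^ k + U + 1) hε)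
  have hlogC : ∀ᶠ x : ℕ in atTop, C ≤ Real.log x :=
    tendsto_natCast_atTop_atTop.eventually (Pool.Agent.Y61.Z.ev_log C)
  filter_upwards [hev, hlog, hlogC, eventually_ge_atTop 3] with x hx hx2 hxC hx3 S A D y hSκ hLS hy
  have hl := log_ge1 hx3
  have hl0 : 0 < Real.log x := by linarith
  have hx1 : (1 : ℝ) ≤ x := by exact_mod_cast (by omega : 1 ≤ x)
  have hx1' : (1 : ℝ) < x := by exact_mod_cast (by omega : 1 < x)
  have hxr : (0 : ℝ) < x := by linarith
  have hSx : ∀ q ∈ S, q ≤ x := by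
    intro q hq
    have h1 : (q : ℝ) ≤ x := by
      refine (hSκ q hq).trans ?_
      calc (x : ℝ) ^ κ ≤ (x : ℝ) ^ (1 : ℝ) := Real.rpow_le_rpow_of_exponent_le hx1 (by linarith)
        _ = x := Real.rpow_one _
    exact_mod_cast h1
  -- the worst height
  have hmax : ∀ q, ∃ Y, Y ≤ x ∧ ∀ z, z ≤ x → |Er z q (rep q (A q []))| ≤ |Er Y q (rep q (A q []))| := by
    intro q
    obtain ⟨Y, hY, hY2⟩ := exists_max_image (range (x + 1)) (fun z => |Er z q (rep q (A q []))|) ⟨0, by simp⟩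
    exact ⟨Y, by have := mem_range.1 hY; omega, fun z hz => hY2 z (by rw [mem_range]; omega)⟩
  choose Y hYx hYm using hmax
  set P : ℝ := C2 * (x / Real.log x ^ (U + 3 + 2 ^ k)) with hP
  have hP0 : 0 ≤ P := by positivity
  set V : ℝ := 4 * Real.log x ^ 2 with hV
  -- one `q`
  have hone : ∀ q ∈ S, ∑ l ∈ D q, (B : ℝ) ^ (q * l.prod).primeFactors.card *
      |pn (y q l) (q * l.prod) (A q l) - lin (y q l) / (Nat.totient (q * l.prod) : ℝ)| ≤
      (B : ℝ) ^ K * ((x : ℝ) ^ (1 - ε) * ((B : ℝ) ^ q.primeFactors.card / (Nat.totient q : ℝ)) +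
        Cd * V * ((B : ℝ) ^ q.primeFactors.card * |Er (Y q) q (rep q (A q []))|) +
        Cd * V * P * ((B : ℝ) ^ q.primeFactors.card / (Nat.totient q : ℝ))) := by
    intro q hq
    have hL := hLS q hq
    have hq0 := hL.q0p
    have hqr : (0 : ℝ) < q := by exact_mod_cast hq0
    have hqt : (0 : ℝ) < Nat.totient q := by exact_mod_cast Nat.totient_pos.2 hq0
    set w : ℝ := (B : ℝ) ^ q.primeFactors.card with hw
    have hw0 : 0 < w := by positivity
    have h1 : ∀ l ∈ D q, (B : ℝ) ^ (q * l.prod).primeFactors.card *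
        |pn (y q l) (q * l.prod) (A q l) - lin (y q l) / (Nat.totient (q * l.prod) : ℝ)| ≤
        (B : ℝ) ^ K * w * (|pn (y q l) (q * l.prod) (A q l) - pn (y q l) q (A q l) / (Nat.totient l.prod : ℝ)| +
          1 / (Nat.totient l.prod : ℝ) * (|Er (Y q) q (rep q (A q []))| + P / (Nat.totient q : ℝ))) := by
      intro l hl
      have hpm : ∀ p ∈ l, p.Prime := fun p hp => (hL.pm l hl p hp).1
      have hlen : l.length ≤ K := by
        have h2 := length_le hL hx1' hρ (by linarith) hl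
        have h3 := Nat.le_ceil (1 / ρ)
        exact_mod_cast h2.trans h3
      have hpos : 0 < l.prod := by
        refine Nat.pos_of_ne_zero fun h0 => ?_
        have := (hL.sf l hl).ne_zero
        rw [h0, mul_zero] at this
        exact this rfl
      have hnil : ([] : List ℕ) <:+ l := List.nil_suffix
      have hnD : [] ∈ D q := suffix_mem hL.sc hl hnil
      have hcg : (q : ℤ) ∣ A q l - A q [] := by
        have h2 := hL.co l hl [] hnil (by
          rw [List.prod_nil, Nat.cast_one, mul_one]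
          exact (hSκ q hq).trans (Real.rpow_le_rpow_of_exponent_le hx1 (by linarith)))
        simpa using h2
      have hcop : IsCoprime (A q []) (q : ℤ) := by
        have h2 := hL.cc [] hnD
        simpa using h2
      have hA : pn (y q l) q (A q l) = (piAP (y q l) q (rep q (A q [])) : ℝ) := by
        rw [pn_congr _ q _ _ hcg, pn_rep _ q _ hq0 hcop]
      have h2 := term_le (y q l) q l.prod (rep q (A q [])) (A q l) hq0 hpos
        (Nat.squarefree_mul_iff.1 (hL.sf l hl)).1 hA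
      have h3 := hYm q (y q l) (hy q l).2
      have h4 := hpnt x hx3 (y q l) (hy q l).1 (hy q l).2
      have hlt : (0 : ℝ) < Nat.totient l.prod := by exact_mod_cast Nat.totient_pos.2 hpos
      have h5 : |(piN (y q l) : ℝ) - lin (y q l)| / (Nat.totient q : ℝ) ≤ P / (Nat.totient q : ℝ) :=
        div_le_div_of_nonneg_right h4 hqt.le
      have h6 : 1 / (Nat.totient l.prod : ℝ) * (|Er (y q l) q (rep q (A q []))| +
          |(piN (y q l) : ℝ) - lin (y q l)| / (Nat.totient q : ℝ)) ≤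
          1 / (Nat.totient l.prod : ℝ) * (|Er (Y q) q (rep q (A q []))| + P / (Nat.totient q : ℝ)) :=
        mul_le_mul_of_nonneg_left (add_le_add h3 h5) (by positivity)
      have h7 : (B : ℝ) ^ (q * l.prod).primeFactors.card ≤ (B : ℝ) ^ K * w := by
        rw [hw, ← pow_add]
        apply pow_le_pow_right₀ hBr
        have := omega_le q l hpm hq0.ne'
        omega
      exact mul_le_mul h7 (h2.trans (add_le_add le_rfl h6)) (abs_nonneg _) (by positivity)
    refine (sum_le_sum h1).trans ?_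
    rw [← mul_sum, sum_add_distrib, ← sum_mul]
    have h2 := hx q (hSκ q hq) (A q) (D q) hL (y q) (fun l => (hy q l).2)
    have h3 : ∑ l ∈ D q, 1 / (Nat.totient l.prod : ℝ) ≤ Cd * V := by
      refine (sum_codes hL hx1' hρ (by linarith) (fun t => 1 / (Nat.totient t : ℝ))
        (fun t => by positivity)).trans ?_
      exact mul_le_mul_of_nonneg_left (sum_inv_phi x hx3 _ (Subset.refl _)) hCd0
    have h4 : (x : ℝ) ^ (1 - ε) / q ≤ (x : ℝ) ^ (1 - ε) / (Nat.totient q : ℝ) := by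
      apply div_le_div_of_nonneg_left (by positivity) hqt
      exact_mod_cast Nat.totient_le q
    have h5 : 0 ≤ |Er (Y q) q (rep q (A q []))| + P / (Nat.totient q : ℝ) := by positivity
    have h6 := mul_le_mul_of_nonneg_right h3 h5
    calc (B : ℝ) ^ K * w * (∑ l ∈ D q, |pn (y q l) (q * l.prod) (A q l) -
          pn (y q l) q (A q l) / (Nat.totient l.prod : ℝ)| +
          (∑ l ∈ D q, 1 / (Nat.totient l.prod : ℝ)) * (|Er (Y q) q (rep q (A q []))| + P / (Nat.totient q : ℝ)))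
        ≤ (B : ℝ) ^ K * w * ((x : ℝ) ^ (1 - ε) / (Nat.totient q : ℝ) +
          Cd * V * (|Er (Y q) q (rep q (A q []))| + P / (Nat.totient q : ℝ))) := by
          apply mul_le_mul_of_nonneg_left _ (by positivity)
          linarith
      _ = _ := by ring
  refine (sum_le_sum hone).trans ?_
  rw [← mul_sum, sum_add_distrib, sum_add_distrib, ← mul_sum, ← mul_sum, ← mul_sum]
  have hSsub : S ⊆ Icc 1 x := fun q hq => mem_Icc.2 ⟨(hLS q hq).q0p, hSx q hq⟩
  have hW : ∑ q ∈ S, (B : ℝ) ^ q.primeFactors.card / (Nat.totient q : ℝ) ≤ (2 * Real.log x) ^ 2 ^ k := by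
    calc ∑ q ∈ S, (B : ℝ) ^ q.primeFactors.card / (Nat.totient q : ℝ)
        ≤ ∑ q ∈ Icc 1 x, (B : ℝ) ^ q.primeFactors.card / (Nat.totient q : ℝ) :=
          sum_le_sum_of_subset_of_nonneg hSsub fun _ _ _ => by positivity
      _ ≤ (1 + Real.log x) ^ 2 ^ k := hk x
      _ ≤ _ := pow_le_pow_left₀ (by linarith) (by linarith) _
  have hE : ∑ q ∈ S, (B : ℝ) ^ q.primeFactors.card * |Er (Y q) q (rep q (A q []))| ≤
      C1 * (x / Real.log x ^ (U + 3)) := by
    refine le_trans ?_ (hbv x hx3 (fun q => rep q (A q [])) (fun d hd => rep_coprime d (A d []) hd) Y hYx)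
    apply sum_le_sum_of_subset_of_nonneg
    · intro q hq
      rw [mem_Icc]
      exact ⟨(hLS q hq).q0p, Nat.le_floor (hSκ q hq)⟩
    · intro i _ _
      positivity
  have hU1 : (0 : ℝ) < x / Real.log x ^ (U + 1) := by positivity
  have g1 : (x : ℝ) ^ (1 - ε) * ∑ q ∈ S, (B : ℝ) ^ q.primeFactors.card / (Nat.totient q : ℝ) ≤
      x / Real.log x ^ (U + 1) := by
    rw [le_div_iff₀ (by positivity)]
    have e : (x : ℝ) = (x : ℝ) ^ (1 - ε) * (x : ℝ) ^ ε := by
      rw [← Real.rpow_add hxr]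
      have : 1 - ε + ε = 1 := by ring
      rw [this, Real.rpow_one]
    have h4 : (2 * Real.log x) ^ 2 ^ k * Real.log x ^ (U + 1) ≤ (x : ℝ) ^ ε := by
      refine le_trans (le_of_eq ?_) hx2
      rw [mul_pow, mul_assoc, ← pow_add]
      congr 2
    calc (x : ℝ) ^ (1 - ε) * (∑ q ∈ S, (B : ℝ) ^ q.primeFactors.card / (Nat.totient q : ℝ)) * Real.log x ^ (U + 1)
        ≤ (x : ℝ) ^ (1 - ε) * (2 * Real.log x) ^ 2 ^ k * Real.log x ^ (U + 1) := by
          apply mul_le_mul_of_nonneg_right _ (by positivity)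
          exact mul_le_mul_of_nonneg_left hW (by positivity)
      _ = (x : ℝ) ^ (1 - ε) * ((2 * Real.log x) ^ 2 ^ k * Real.log x ^ (U + 1)) := by ring
      _ ≤ (x : ℝ) ^ (1 - ε) * (x : ℝ) ^ ε := mul_le_mul_of_nonneg_left h4 (by positivity)
      _ = x := e.symm
  have g2 : Cd * V * ∑ q ∈ S, (B : ℝ) ^ q.primeFactors.card * |Er (Y q) q (rep q (A q []))| ≤
      4 * Cd * C1 * (x / Real.log x ^ (U + 1)) := by
    calc Cd * V * ∑ q ∈ S, (B : ℝ) ^ q.primeFactors.card * |Er (Y q) q (rep q (A q []))|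
        ≤ Cd * V * (C1 * (x / Real.log x ^ (U + 3))) := mul_le_mul_of_nonneg_left hE (by positivity)
      _ = _ := by
        have : Real.log x ^ (U + 3) = Real.log x ^ (U + 1) * Real.log x ^ 2 := by
          rw [← pow_add]
        rw [hV, this]
        field_simp
  have g3 : Cd * V * P * ∑ q ∈ S, (B : ℝ) ^ q.primeFactors.card / (Nat.totient q : ℝ) ≤
      4 * Cd * C2 * 2 ^ 2 ^ k * (x / Real.log x ^ (U + 1)) := by
    calc Cd * V * P * ∑ q ∈ S, (B : ℝ) ^ q.primeFactors.card / (Nat.totient q : ℝ)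
        ≤ Cd * V * P * (2 * Real.log x) ^ 2 ^ k := mul_le_mul_of_nonneg_left hW (by positivity)
      _ = _ := by
        have : Real.log x ^ (U + 3 + 2 ^ k) = Real.log x ^ (U + 1) * Real.log x ^ 2 * Real.log x ^ 2 ^ k := by
          rw [← pow_add, ← pow_add]
        rw [hV, hP, this, mul_pow]
        field_simp
  calc (B : ℝ) ^ K * ((x : ℝ) ^ (1 - ε) * ∑ q ∈ S, (B : ℝ) ^ q.primeFactors.card / (Nat.totient q : ℝ) +
        Cd * V * ∑ q ∈ S, (B : ℝ) ^ q.primeFactors.card * |Er (Y q) q (rep q (A q []))| +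
        Cd * V * P * ∑ q ∈ S, (B : ℝ) ^ q.primeFactors.card / (Nat.totient q : ℝ))
      ≤ (B : ℝ) ^ K * (x / Real.log x ^ (U + 1) + 4 * Cd * C1 * (x / Real.log x ^ (U + 1)) +
        4 * Cd * C2 * 2 ^ 2 ^ k * (x / Real.log x ^ (U + 1))) := by
        apply mul_le_mul_of_nonneg_left _ (by positivity)
        linarith
    _ = C * (x / Real.log x ^ (U + 1)) := by rw [hC]; ring
    _ ≤ Real.log x * (x / Real.log x ^ (U + 1)) := mul_le_mul_of_nonneg_right hxC hU1.le
    _ = x / Real.log x ^ U := by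
        rw [pow_succ]
        field_simp

end Pool.Agent.R503.W
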