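import Mathlib
import Pool.Agent.R503.W.FinT
import Pool.Agent.R503.N.PiD

/-! Weighted sums over smooth cofactors of a large divisor, with the maximum over the heights inside (helper503). -/

open Finset Filter

namespace Pool.Agent.R503.W

open Pool.Agent.R503.N
open Pool.Agent.H442R2.KF

lemma omega_le' {x q0 : ℕ} {c : ℤ} {θ ε1 η : ℝ} {t : ℕ} (hx : (1 : ℝ) < x) (hε : 0 < ε1) (hθ : θ ≤ 1) (hq : 0 < q0)
    (h : Mo x q0 c θ ε1 η t) :
    (q0 * t).primeFactors.card ≤ q0.primeFactors.card + ⌈1 / ε1⌉₊ := by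
  have ht := h.pos
  rw [Nat.primeFactors_mul hq.ne' ht.ne']
  refine (card_union_le _ _).trans (Nat.add_le_add_left ?_ _)
  have h1 : ((x : ℝ) ^ ε1) ^ t.primeFactors.card ≤ x := by
    have h2 : ((∏ p ∈ t.primeFactors, p : ℕ) : ℝ) ≤ x := by
      have h3 : ((∏ p ∈ t.primeFactors, p : ℕ) : ℝ) ≤ t := by
        exact_mod_cast Nat.le_of_dvd ht (Nat.prod_primeFactors_dvd t)
      have h4 : (t : ℝ) ≤ q0 * t := le_mul_of_one_le_left (Nat.cast_nonneg t) (by exact_mod_cast hq)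
      refine h3.trans (h4.trans (h.2.2.2.trans ?_))
      calc (x : ℝ) ^ θ ≤ (x : ℝ) ^ (1 : ℝ) := Real.rpow_le_rpow_of_exponent_le hx.le hθ
        _ = x := Real.rpow_one _
    refine le_trans ?_ h2
    rw [← prod_const, Nat.cast_prod]
    apply Finset.prod_le_prod
    · intro p _
      exact Real.rpow_nonneg (by linarith) _
    · intro p hp
      exact (h.2.2.1 p (Nat.prime_of_mem_primeFactors hp) (Nat.dvd_of_mem_primeFactors hp)).1.le
  have hx0 : (0 : ℝ) < x := by linarith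
  rw [← Real.rpow_natCast, ← Real.rpow_mul hx0.le] at h1
  have h2 : (x : ℝ) ^ (ε1 * (t.primeFactors.card : ℝ)) ≤ (x : ℝ) ^ (1 : ℝ) := by rw [Real.rpow_one]; exact h1
  have h3 := (Real.rpow_le_rpow_left_iff hx).1 h2
  have h4 : (t.primeFactors.card : ℝ) ≤ 1 / ε1 := by
    rw [le_div_iff₀ hε]
    linarith
  exact_mod_cast h4.trans (Nat.le_ceil _)

/-- **the weighted form for smooth cofactors** -/
theorem fin_wN (θ κ : ℝ) (hθ1 : 1 / 2 ≤ θ) (hθ : θ < 43 / 84) (hκ0 : 0 ≤ κ) (hκ : κ < 1 / 3) :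
    ∃ η : ℝ, 0 < η ∧ ∀ ε1 : ℝ, 0 < ε1 → ∀ B U : ℕ, 1 ≤ B →
    ∀ᶠ x : ℕ in atTop, ∀ (S : Finset ℕ) (a : ℕ → ℤ) (T : ℕ → Finset ℕ) (y : ℕ → ℕ → ℕ),
      (∀ q ∈ S, 0 < q ∧ (q : ℝ) ≤ (x : ℝ) ^ κ ∧ IsCoprime (a q) (q : ℤ)) →
      (∀ q ∈ S, ∀ t ∈ T q, Mo x q (a q) θ ε1 η t) →
      (∀ q t, 2 ≤ y q t ∧ y q t ≤ x) →
      ∑ q ∈ S, ∑ t ∈ T q, (B : ℝ) ^ (q * t).primeFactors.card *
        |pn (y q t) (q * t) (a q) - lin (y q t) / (Nat.totient (q * t) : ℝ)| ≤
        x / Real.log x ^ U := by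
  classical
  obtain ⟨η, hη, hmain⟩ := pi_max θ κ hθ1 hθ hκ0 hκ
  refine ⟨η, hη, fun ε1 hε1 B U hB => ?_⟩
  obtain ⟨ε, hε, hev⟩ := hmain ε1 hε1
  have hBr : (1 : ℝ) ≤ B := by exact_mod_cast hB
  set K : ℕ := ⌈1 / ε1⌉₊ with hK
  obtain ⟨k, hk⟩ := Pool.Agent.H398R2.BV.sum_pow_omega_div_totient (B : ℝ) hBr
  obtain ⟨C1, hC1, hbv⟩ := bv_weights κ (by linarith) B (U + 3) hB
  obtain ⟨C2, hC2, hpnt⟩ := pnt_heights (U + 3 + 2 ^ k)
  set C : ℝ := (B : ℝ) ^ K * (1 + 4 * C1 + 4 * C2 * 2 ^ 2 ^ k) with hC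
  have hlog : ∀ᶠ x : ℕ in atTop, 2 ^ 2 ^ k * Real.log x ^ (2 ^ k + U + 1) ≤ (x : ℝ) ^ ε :=
    tendsto_natCast_atTop_atTop.eventually (Pool.Agent.Y61.Z.ev_log_rpow (2 ^ 2 ^ k) (2 ^ k + U + 1) hε)
  have hlogC : ∀ᶠ x : ℕ in atTop, C ≤ Real.log x :=
    tendsto_natCast_atTop_atTop.eventually (Pool.Agent.Y61.Z.ev_log C)
  filter_upwards [hev, hlog, hlogC, eventually_ge_atTop 3] with x hx hx2 hxC hx3 S a T y hS hT hy
  have hl := log_ge1 hx3
  have hl0 : 0 < Real.log x := by linarith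
  have hx1 : (1 : ℝ) ≤ x := by exact_mod_cast (by omega : 1 ≤ x)
  have hx1' : (1 : ℝ) < x := by exact_mod_cast (by omega : 1 < x)
  have hxr : (0 : ℝ) < x := by linarith
  have hSx : ∀ q ∈ S, q ≤ x := by
    intro q hq
    have h1 : (q : ℝ) ≤ x := by
      refine (hS q hq).2.1.trans ?_
      calc (x : ℝ) ^ κ ≤ (x : ℝ) ^ (1 : ℝ) := Real.rpow_le_rpow_of_exponent_le hx1 (by linarith)
        _ = x := Real.rpow_one _
    exact_mod_cast h1
  have hTx : ∀ q ∈ S, T q ⊆ Icc 1 x := by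
    intro q hq t ht
    rw [mem_Icc]
    refine ⟨(hT q hq t ht).pos, ?_⟩
    have h1 : (t : ℝ) ≤ x := by
      have h2 : (t : ℝ) ≤ q * t := le_mul_of_one_le_left (Nat.cast_nonneg t) (by exact_mod_cast (hS q hq).1)
      refine h2.trans ((hT q hq t ht).2.2.2.trans ?_)
      calc (x : ℝ) ^ θ ≤ (x : ℝ) ^ (1 : ℝ) := Real.rpow_le_rpow_of_exponent_le hx1 (by linarith)
        _ = x := Real.rpow_one _
    exact_mod_cast h1
  -- the worst height
  have hmax : ∀ q, ∃ Y, Y ≤ x ∧ ∀ z, z ≤ x → |Er z q (rep q (a q))| ≤ |Er Y q (rep q (a q))| := by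
    intro q
    obtain ⟨Y, hY, hY2⟩ := exists_max_image (range (x + 1)) (fun z => |Er z q (rep q (a q))|) ⟨0, by simp⟩
    exact ⟨Y, by have := mem_range.1 hY; omega, fun z hz => hY2 z (by rw [mem_range]; omega)⟩
  choose Y hYx hYm using hmax
  set P : ℝ := C2 * (x / Real.log x ^ (U + 3 + 2 ^ k)) with hP
  have hP0 : 0 ≤ P := by positivity
  set V : ℝ := 4 * Real.log x ^ 2 with hV
  -- one `q`
  have hone : ∀ q ∈ S, ∑ t ∈ T q, (B : ℝ) ^ (q * t).primeFactors.card *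
      |pn (y q t) (q * t) (a q) - lin (y q t) / (Nat.totient (q * t) : ℝ)| ≤
      (B : ℝ) ^ K * ((x : ℝ) ^ (1 - ε) * ((B : ℝ) ^ q.primeFactors.card / (Nat.totient q : ℝ)) +
        V * ((B : ℝ) ^ q.primeFactors.card * |Er (Y q) q (rep q (a q))|) +
        V * P * ((B : ℝ) ^ q.primeFactors.card / (Nat.totient q : ℝ))) := by
    intro q hq
    obtain ⟨hq0, hqκ, hcop⟩ := hS q hq
    have hqr : (0 : ℝ) < q := by exact_mod_cast hq0
    have hqt : (0 : ℝ) < Nat.totient q := by exact_mod_cast Nat.totient_pos.2 hq0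
    set w : ℝ := (B : ℝ) ^ q.primeFactors.card with hw
    have hw0 : 0 < w := by positivity
    have h1 : ∀ t ∈ T q, (B : ℝ) ^ (q * t).primeFactors.card *
        |pn (y q t) (q * t) (a q) - lin (y q t) / (Nat.totient (q * t) : ℝ)| ≤
        (B : ℝ) ^ K * w * (|pn (y q t) (q * t) (a q) - pn (y q t) q (a q) / (Nat.totient t : ℝ)| +
          1 / (Nat.totient t : ℝ) * (|Er (Y q) q (rep q (a q))| + P / (Nat.totient q : ℝ))) := by
      intro t ht
      have hpos := (hT q hq t ht).pos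
      have hA : pn (y q t) q (a q) = (piAP (y q t) q (rep q (a q)) : ℝ) := pn_rep _ q _ hq0 hcop
      have h2 := term_le (y q t) q t (rep q (a q)) (a q) hq0 hpos
        (Nat.squarefree_mul_iff.1 (hT q hq t ht).1).1 hA
      have h3 := hYm q (y q t) (hy q t).2
      have h4 := hpnt x hx3 (y q t) (hy q t).1 (hy q t).2
      have hlt : (0 : ℝ) < Nat.totient t := by exact_mod_cast Nat.totient_pos.2 hpos
      have h5 : |(piN (y q t) : ℝ) - lin (y q t)| / (Nat.totient q : ℝ) ≤ P / (Nat.totient q : ℝ) :=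
        div_le_div_of_nonneg_right h4 hqt.le
      have h6 : 1 / (Nat.totient t : ℝ) * (|Er (y q t) q (rep q (a q))| +
          |(piN (y q t) : ℝ) - lin (y q t)| / (Nat.totient q : ℝ)) ≤
          1 / (Nat.totient t : ℝ) * (|Er (Y q) q (rep q (a q))| + P / (Nat.totient q : ℝ)) :=
        mul_le_mul_of_nonneg_left (add_le_add h3 h5) (by positivity)
      have h7 : (B : ℝ) ^ (q * t).primeFactors.card ≤ (B : ℝ) ^ K * w := by
        rw [hw, ← pow_add]
        apply pow_le_pow_right₀ hBr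
        have := omega_le' hx1' hε1 (by linarith : θ ≤ 1) hq0 (hT q hq t ht)
        omega
      exact mul_le_mul h7 (h2.trans (add_le_add le_rfl h6)) (abs_nonneg _) (by positivity)
    refine (sum_le_sum h1).trans ?_
    rw [← mul_sum, sum_add_distrib, ← sum_mul]
    have h2 := hx q hq0 hqκ (a q) hcop (T q) (hT q hq) (y q) (fun t => (hy q t).2)
    have h3 : ∑ t ∈ T q, 1 / (Nat.totient t : ℝ) ≤ V := sum_inv_phi x hx3 (T q) (hTx q hq)
    have h4 : (x : ℝ) ^ (1 - ε) / q ≤ (x : ℝ) ^ (1 - ε) / (Nat.totient q : ℝ) := by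
      apply div_le_div_of_nonneg_left (by positivity) hqt
      exact_mod_cast Nat.totient_le q
    have h5 : 0 ≤ |Er (Y q) q (rep q (a q))| + P / (Nat.totient q : ℝ) := by positivity
    have h6 := mul_le_mul_of_nonneg_right h3 h5
    calc (B : ℝ) ^ K * w * (∑ t ∈ T q, |pn (y q t) (q * t) (a q) -
          pn (y q t) q (a q) / (Nat.totient t : ℝ)| +
          (∑ t ∈ T q, 1 / (Nat.totient t : ℝ)) * (|Er (Y q) q (rep q (a q))| + P / (Nat.totient q : ℝ)))
        ≤ (B : ℝ) ^ K * w * ((x : ℝ) ^ (1 - ε) / (Nat.totient q : ℝ) +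
          V * (|Er (Y q) q (rep q (a q))| + P / (Nat.totient q : ℝ))) := by
          apply mul_le_mul_of_nonneg_left _ (by positivity)
          linarith
      _ = _ := by ring
  refine (sum_le_sum hone).trans ?_
  rw [← mul_sum, sum_add_distrib, sum_add_distrib, ← mul_sum, ← mul_sum, ← mul_sum]
  have hSsub : S ⊆ Icc 1 x := fun q hq => mem_Icc.2 ⟨(hS q hq).1, hSx q hq⟩
  have hW : ∑ q ∈ S, (B : ℝ) ^ q.primeFactors.card / (Nat.totient q : ℝ) ≤ (2 * Real.log x) ^ 2 ^ k := by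
    calc ∑ q ∈ S, (B : ℝ) ^ q.primeFactors.card / (Nat.totient q : ℝ)
        ≤ ∑ q ∈ Icc 1 x, (B : ℝ) ^ q.primeFactors.card / (Nat.totient q : ℝ) :=
          sum_le_sum_of_subset_of_nonneg hSsub fun _ _ _ => by positivity
      _ ≤ (1 + Real.log x) ^ 2 ^ k := hk x
      _ ≤ _ := pow_le_pow_left₀ (by linarith) (by linarith) _
  have hE : ∑ q ∈ S, (B : ℝ) ^ q.primeFactors.card * |Er (Y q) q (rep q (a q))| ≤
      C1 * (x / Real.log x ^ (U + 3)) := by
    refine le_trans ?_ (hbv x hx3 (fun q => rep q (a q)) (fun d hd => rep_coprime d (a d) hd) Y hYx)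
    apply sum_le_sum_of_subset_of_nonneg
    · intro q hq
      rw [mem_Icc]
      exact ⟨(hS q hq).1, Nat.le_floor (hS q hq).2.1⟩
    · intro i _ _
      positivity
  have hU1 : (0 : ℝ) < x / Real.log x ^ (U + 1) := by positivity
  have g1 : (x : ℝ) ^ (1 - ε) * ∑ q ∈ S, (B : ℝ) ^ q.primeFactors.card / (Nat.totient q : ℝ) ≤
      x / Real.log x ^ (U + 1) := by
    rw [le_div_iff₀ (by positivity)]
    have e : (x : ℝ) = (x : ℝ) ^ (1 - ε) * (x : ℝ) ^ ε := by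
      rw [← Real.rpow_add hxr]
      have : 1 - ε + ε = 1 := by ring
      rw [this, Real.rpow_one]
    have h4 : (2 * Real.log x) ^ 2 ^ k * Real.log x ^ (U + 1) ≤ (x : ℝ) ^ ε := by
      refine le_trans (le_of_eq ?_) hx2
      rw [mul_pow, mul_assoc, ← pow_add]
      congr 2
    calc (x : ℝ) ^ (1 - ε) * (∑ q ∈ S, (B : ℝ) ^ q.primeFactors.card / (Nat.totient q : ℝ)) * Real.log x ^ (U + 1)
        ≤ (x : ℝ) ^ (1 - ε) * (2 * Real.log x) ^ 2 ^ k * Real.log x ^ (U + 1) := by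
          apply mul_le_mul_of_nonneg_right _ (by positivity)
          exact mul_le_mul_of_nonneg_left hW (by positivity)
      _ = (x : ℝ) ^ (1 - ε) * ((2 * Real.log x) ^ 2 ^ k * Real.log x ^ (U + 1)) := by ring
      _ ≤ (x : ℝ) ^ (1 - ε) * (x : ℝ) ^ ε := mul_le_mul_of_nonneg_left h4 (by positivity)
      _ = x := e.symm
  have g2 : V * ∑ q ∈ S, (B : ℝ) ^ q.primeFactors.card * |Er (Y q) q (rep q (a q))| ≤
      4 * C1 * (x / Real.log x ^ (U + 1)) := by
    calc V * ∑ q ∈ S, (B : ℝ) ^ q.primeFactors.card * |Er (Y q) q (rep q (a q))|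
        ≤ V * (C1 * (x / Real.log x ^ (U + 3))) := mul_le_mul_of_nonneg_left hE (by positivity)
      _ = _ := by
        have : Real.log x ^ (U + 3) = Real.log x ^ (U + 1) * Real.log x ^ 2 := by
          rw [← pow_add]
        rw [hV, this]
        field_simp
  have g3 : V * P * ∑ q ∈ S, (B : ℝ) ^ q.primeFactors.card / (Nat.totient q : ℝ) ≤
      4 * C2 * 2 ^ 2 ^ k * (x / Real.log x ^ (U + 1)) := by
    calc V * P * ∑ q ∈ S, (B : ℝ) ^ q.primeFactors.card / (Nat.totient q : ℝ)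
        ≤ V * P * (2 * Real.log x) ^ 2 ^ k := mul_le_mul_of_nonneg_left hW (by positivity)
      _ = _ := by
        have : Real.log x ^ (U + 3 + 2 ^ k) = Real.log x ^ (U + 1) * Real.log x ^ 2 * Real.log x ^ 2 ^ k := by
          rw [← pow_add, ← pow_add]
        rw [hV, hP, this, mul_pow]
        field_simp
  calc (B : ℝ) ^ K * ((x : ℝ) ^ (1 - ε) * ∑ q ∈ S, (B : ℝ) ^ q.primeFactors.card / (Nat.totient q : ℝ) +
        V * ∑ q ∈ S, (B : ℝ) ^ q.primeFactors.card * |Er (Y q) q (rep q (a q))| +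
        V * P * ∑ q ∈ S, (B : ℝ) ^ q.primeFactors.card / (Nat.totient q : ℝ))
      ≤ (B : ℝ) ^ K * (x / Real.log x ^ (U + 1) + 4 * C1 * (x / Real.log x ^ (U + 1)) +
        4 * C2 * 2 ^ 2 ^ k * (x / Real.log x ^ (U + 1))) := by
        apply mul_le_mul_of_nonneg_left _ (by positivity)
        linarith
    _ = C * (x / Real.log x ^ (U + 1)) := by rw [hC]; ring
    _ ≤ Real.log x * (x / Real.log x ^ (U + 1)) := mul_le_mul_of_nonneg_right hxC hU1.le
    _ = x / Real.log x ^ U := by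
        rw [pow_succ]
        field_simp

end Pool.Agent.R503.W
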